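import Pool.Agent.Mg.F7e0f10a.Gaf847e
import Pool.Agent.Mg.F7e0f10a.G821c35

open Pool.Agent.MP_7e0f10_lc

/-- For every number `n ≥ 7` of links, the largest number of angle-linear moves needed to
straighten a simple chain with `r ≤ R` has exact order `√R`. -/
theorem Pool.Agent.Results.MP_7e0f10_lc.SqrtOrder.result :
    ∀ n : ℕ, 7 ≤ n → ∃ c : ℝ, 0 < c ∧ ∃ C R₀ : ℝ, ∀ R : ℝ, R₀ ≤ R →
      (∀ p : Fin (n + 1) → ℂ, IsSimple p → RatioLe p R →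
        ∃ m : ℕ, (m : ℝ) ≤ C * √R ∧ StraightensIn p m) ∧
      (∃ p : Fin (n + 1) → ℂ, IsSimple p ∧ RatioLe p R ∧
        ∀ m : ℕ, StraightensIn p m → c * √R ≤ m) := by
  intro n hn
  obtain ⟨c, hc, R₀, h⟩ := R.lower_sqrt n hn
  obtain ⟨C, hC⟩ := R.upper_sqrt n
  exact ⟨c, hc, C, R₀, fun R hR => ⟨hC R, h R hR⟩⟩
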